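import Pool.Agent.Helper28.TL.StW

/-!
# Project TL, all weights, module Tr: transport of the Eichler potentials (level `4 p^n`)
-/

set_option autoImplicit false

namespace Pool.Agent.Helper16.TLW

open Pool.Agent.Helper28.TL Pool.Agent.Helper28.WK Pool.Agent.Helper4.TL Pool.Agent.Helper14.CV
open Polynomial (X C)

private theorem pr_phi (q a : ℕ) (I : ℤ → ℤ → ℕ → ℂ) (P : Polynomial ℤ) (x y : ℤ) :
    pr (PhiOf q a I) P x y = pr I (P.comp (C (q : ℤ) * X)) x (q * y) +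
      ((-1 : ℤ) ^ a) • pr I (P.comp (C (-(q : ℤ)) * X)) (-x) (q * y) := by
  induction P using Polynomial.induction_on' with
  | add P Q hP hQ =>
    rw [pr_add, Polynomial.add_comp, Polynomial.add_comp, pr_add, pr_add]
    simp only [Pi.add_apply, hP, hQ, smul_add]
    abel
  | monomial n c =>
    have h1 : (Polynomial.monomial n c : Polynomial ℤ) = C c * X ^ n :=
      (Polynomial.C_mul_X_pow_eq_monomial).symm
    have h2 : ∀ t : ℤ, (C c * X ^ n : Polynomial ℤ).comp (C t * X) = C c * (C (t ^ n) * X ^ n) := by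
      intro t
      simp [Polynomial.mul_comp, mul_pow]
    rw [h1, h2, h2]
    simp only [pr_C_mul, pr_X_pow, Pi.smul_apply, cp, PhiOf, smul_add, smul_smul]
    congr 2
    rw [pow_add, neg_pow (q : ℤ) n]
    ring

section

variable {p q a ν : ℕ} {I : ℤ → ℤ → ℕ → ℂ}

private theorem homog_pr (h : IDataE p a ν I) (P : Polynomial ℤ) (hP : P.natDegree ≤ 2 * a) :
    Homog (pr I P) := by
  intro k x y hk hxy
  rw [pr_eq_sum I P (2 * a + 1) (by omega)]
  simp only [Finset.sum_apply, Pi.smul_apply]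
  refine Finset.sum_congr rfl fun i hi => ?_
  rw [Finset.mem_range] at hi
  rw [h.hom i (by omega) k x y hk hxy]

private theorem eqv' (h : IDataE p a ν I) {α β γ δ : ℤ} (hd : α * δ - β * γ = 1)
    (hγ : 4 * (p : ℤ) ^ (ν + 2) ∣ γ) (F : Finset ℕ) (b : ℕ → ℤ) (e : ℕ → ℕ)
    (he : ∀ k ∈ F, e k ≤ 2 * a) :
    EqC (act α β γ δ (pr I (∑ k ∈ F, C (b k) * X ^ (e k))))
      (pr I (∑ k ∈ F, C (b k) *
        ((C α * X + C β) ^ e k * (C γ * X + C δ) ^ (2 * a - e k)))) := by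
  rw [pr_sum, pr_sum]
  have h1 : act α β γ δ (∑ k ∈ F, pr I (C (b k) * X ^ (e k))) =
      ∑ k ∈ F, b k • act α β γ δ (cp I (e k)) := by
    funext x y
    simp only [act, Finset.sum_apply, pr_C_mul, pr_X_pow, Pi.smul_apply]
  rw [h1]
  refine Pool.Agent.Helper28.WK.EqC.sum F fun k hk => ?_
  rw [pr_C_mul]
  exact (h.eqv α β γ δ hd hγ (e k) (he k hk)).smul (b k)

private theorem trans1 (h : IDataE p a ν I) (P : Polynomial ℤ) (hP : P.natDegree ≤ 2 * a) :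
    EqC (act 1 1 0 1 (pr I P)) (pr I (P.comp (X + 1))) := by
  have h1 := eqv' h (α := 1) (β := 1) (γ := 0) (δ := 1) (by norm_num) (dvd_zero _)
    (Finset.range (2 * a + 1)) P.coeff id (fun k hk => by
      rw [Finset.mem_range] at hk
      simp only [id]
      omega)
  have h2 : ∑ k ∈ Finset.range (2 * a + 1), C (P.coeff k) * X ^ (id k) = P :=
    (P.as_sum_range_C_mul_X_pow' (by omega)).symm
  have h3 : ∑ k ∈ Finset.range (2 * a + 1), C (P.coeff k) *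
      ((C (1 : ℤ) * X + C 1) ^ id k * (C (0 : ℤ) * X + C 1) ^ (2 * a - id k)) = P.comp (X + 1) := by
    rw [Polynomial.comp, Polynomial.eval₂_eq_sum_range' C (by omega : P.natDegree < 2 * a + 1)]
    refine Finset.sum_congr rfl fun k _ => by simp
  rwa [h2, h3] at h1

private theorem trans2 (h : IDataE p a ν I) (j : ℕ) (hj : j ≤ 2 * a) (s c : ℤ)
    (hc : 4 * (p : ℤ) ^ (ν + 2) ∣ c) :
    EqC (act 1 0 c 1 (pr I (X ^ j * (1 - C s * X) ^ (2 * a - j))))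
      (pr I (X ^ j * (1 - C (s - c) * X) ^ (2 * a - j))) := by
  have h1 := eqv' h (α := 1) (β := 0) (γ := c) (δ := 1) (by norm_num) hc
    (Finset.range (2 * a - j + 1)) (fun k => (-s) ^ k * ((2 * a - j).choose k : ℤ)) (fun k => j + k)
    (fun k hk => by
      rw [Finset.mem_range] at hk
      omega)
  have h2 : ∑ k ∈ Finset.range (2 * a - j + 1), C ((-s) ^ k * ((2 * a - j).choose k : ℤ)) * X ^ (j + k) =
      (X ^ j * (1 - C s * X) ^ (2 * a - j) : Polynomial ℤ) := by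
    have e : (1 - C s * X : Polynomial ℤ) = C (-s) * X + 1 := by
      rw [Polynomial.C_neg]
      ring
    rw [e, add_pow, Finset.mul_sum]
    refine Finset.sum_congr rfl fun k _ => ?_
    rw [one_pow, mul_pow, Polynomial.C_mul, Polynomial.C_pow, pow_add, map_natCast]
    ring
  have h3 : ∑ k ∈ Finset.range (2 * a - j + 1), C ((-s) ^ k * ((2 * a - j).choose k : ℤ)) *
      ((C (1 : ℤ) * X + C 0) ^ (j + k) * (C c * X + C 1) ^ (2 * a - (j + k))) =
      (X ^ j * (1 - C (s - c) * X) ^ (2 * a - j) : Polynomial ℤ) := by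
    have e : (1 - C (s - c) * X : Polynomial ℤ) = C (-s) * X + (C c * X + 1) := by
      rw [Polynomial.C_neg, Polynomial.C_sub]
      ring
    rw [e, add_pow, Finset.mul_sum]
    refine Finset.sum_congr rfl fun k _ => ?_
    rw [mul_pow, Polynomial.C_mul, Polynomial.C_pow, Nat.sub_add_eq, map_natCast]
    simp only [map_one, map_zero, one_mul, add_zero, pow_add]
    ring
  rwa [h2, h3] at h1

private theorem sum_neg_idx (p : ℕ) (T : ℤ → ℤ → ℤ → ℂ) (hT : ∀ i : ℤ, EqC (T (i + p)) (T i)) :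
    EqC (∑ i ∈ Finset.range p, T (-(i : ℤ))) (∑ i ∈ Finset.range p, T (i : ℤ)) := by
  have h1 : ∑ i ∈ Finset.range p, T (-(i : ℤ)) = ∑ i ∈ Finset.range p, T ((i : ℤ) + 1 - p) := by
    rw [← Finset.sum_range_reflect]
    refine Finset.sum_congr rfl fun i hi => ?_
    rw [Finset.mem_range] at hi
    congr 1
    omega
  have h2 : EqC (∑ i ∈ Finset.range p, T ((i : ℤ) + 1 - p)) (∑ i ∈ Finset.range p, T ((i : ℤ) + 1)) := by
    refine Pool.Agent.Helper28.WK.EqC.sum _ fun i _ => ?_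
    have := (hT ((i : ℤ) + 1 - p)).symm
    rwa [sub_add_cancel] at this
  have h3 : ∑ i ∈ Finset.range p, T ((i : ℤ) + 1) = (∑ i ∈ Finset.range p, T (i : ℤ)) + (T p - T 0) := by
    have e1 := Finset.sum_range_succ (fun i : ℕ => T (i : ℤ)) p
    have e2 := Finset.sum_range_succ' (fun i : ℕ => T (i : ℤ)) p
    rw [e1] at e2
    push_cast at e2
    rw [add_sub, e2]
    simp
  have h4 : EqC (T p - T 0) 0 := by
    have h5 := hT 0
    rw [zero_add] at h5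
    have h6 := h5.sub (EqC.refl (T 0))
    rwa [sub_self] at h6
  rw [h1]
  refine h2.trans ?_
  rw [h3]
  have h5 := (EqC.refl (∑ i ∈ Finset.range p, T (i : ℤ))).add h4
  rwa [add_zero] at h5

private theorem ne_vec (hq0 : (q : ℤ) ≠ 0) {x y : ℤ} (h : x ≠ 0 ∨ y ≠ 0) : x ≠ 0 ∨ (q : ℤ) * y ≠ 0 := by
  rcases h with h | h
  · exact Or.inl h
  · exact Or.inr (mul_ne_zero hq0 h)

private theorem ne_vec2 (hq0 : (q : ℤ) ≠ 0) {x y : ℤ} (i : ℤ) (h : x ≠ 0 ∨ y ≠ 0) :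
    x + i * y ≠ 0 ∨ (q : ℤ) * y ≠ 0 := by
  by_cases hy : y = 0
  · left
    subst hy
    simpa using h
  · exact Or.inr (mul_ne_zero hq0 hy)

private theorem deg_lin (u i : ℤ) (j : ℕ) : ((C u * X - C i) ^ j : Polynomial ℤ).natDegree ≤ j := by
  refine (Polynomial.natDegree_pow_le).trans ?_
  have h1 : (C u * X - C i : Polynomial ℤ).natDegree ≤ 1 := by
    rw [sub_eq_add_neg, ← Polynomial.C_neg]
    exact Polynomial.natDegree_linear_le
  nlinarith

private theorem p_eqv (hq0 : (q : ℤ) ≠ 0) (h : IDataE p a ν I) : ∀ α β γ δ : ℤ, α * δ - β * γ = 1 →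
    (q : ℤ) ∣ β → 4 * (p : ℤ) ^ (ν + 2) ∣ q * γ → ∀ i : ℕ, i ≤ 2 * a →
    EqC (act α β γ δ (cp (PhiOf q a I) i)) (pr (PhiOf q a I) ((C α * X + C β) ^ i *
      (C γ * X + C δ) ^ (2 * a - i))) := by
  intro α β γ δ hd hβ hγ' i hi
  obtain ⟨β', rfl⟩ := hβ
  have h1 := (h.eqv α β' (q * γ) δ (by linear_combination hd) hγ' i hi).act
    (a := 1) (b := 0) (c := 0) (d := (q : ℤ)) (by simpa using hq0)
  have h2 := (h.eqv α (-β') (-(q * γ)) δ (by linear_combination hd) ((dvd_neg).2 hγ') i hi).act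
    (a := -1) (b := 0) (c := 0) (d := (q : ℤ)) (by simpa using hq0)
  have h3 := (h1.smul ((q : ℤ) ^ i)).add (h2.smul ((-1 : ℤ) ^ (a + i) * (q : ℤ) ^ i))
  have e1 : ((q : ℤ) ^ i) • act 1 0 0 (q : ℤ) (act α β' (q * γ) δ (cp I i)) +
      ((-1 : ℤ) ^ (a + i) * (q : ℤ) ^ i) • act (-1) 0 0 (q : ℤ) (act α (-β') (-(q * γ)) δ (cp I i)) =
      act α (q * β') γ δ (cp (PhiOf q a I) i) := by
    funext x y
    simp only [Pi.add_apply, Pi.smul_apply, act, cp, PhiOf]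
    have a1 : α * (1 * x + 0 * y) + β' * (0 * x + q * y) = α * x + q * β' * y := by ring
    have a2 : q * γ * (1 * x + 0 * y) + δ * (0 * x + q * y) = q * (γ * x + δ * y) := by ring
    have a3 : α * (-1 * x + 0 * y) + -β' * (0 * x + q * y) = -(α * x + q * β' * y) := by ring
    have a4 : -(q * γ) * (-1 * x + 0 * y) + δ * (0 * x + q * y) = q * (γ * x + δ * y) := by ring
    rw [a1, a2, a3, a4]
  have b1 : ((C α * X + C (q * β')) ^ i * (C γ * X + C δ) ^ (2 * a - i) : Polynomial ℤ).comp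
      (C (q : ℤ) * X) = C ((q : ℤ) ^ i) * ((C α * X + C β') ^ i * (C (q * γ) * X + C δ) ^ (2 * a - i)) := by
    have c1 : (C α * (C (q : ℤ) * X) + C (q * β') : Polynomial ℤ) = C (q : ℤ) * (C α * X + C β') := by
      rw [Polynomial.C_mul]
      ring
    have c2 : (C γ * (C (q : ℤ) * X) + C δ : Polynomial ℤ) = C (q * γ) * X + C δ := by
      rw [Polynomial.C_mul]
      ring
    rw [Polynomial.mul_comp, Polynomial.pow_comp, Polynomial.pow_comp, Polynomial.add_comp, Polynomial.add_comp,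
      Polynomial.mul_comp, Polynomial.mul_comp, Polynomial.C_comp, Polynomial.C_comp, Polynomial.C_comp,
      Polynomial.C_comp, Polynomial.X_comp, c1, c2, mul_pow, Polynomial.C_pow, mul_assoc]
  have b2 : ((C α * X + C (q * β')) ^ i * (C γ * X + C δ) ^ (2 * a - i) : Polynomial ℤ).comp
      (C (-(q : ℤ)) * X) = C ((-1) ^ i * (q : ℤ) ^ i) *
        ((C α * X + C (-β')) ^ i * (C (-(q * γ)) * X + C δ) ^ (2 * a - i)) := by
    have c1 : (C α * (C (-(q : ℤ)) * X) + C (q * β') : Polynomial ℤ) = C (-(q : ℤ)) * (C α * X + C (-β')) := by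
      rw [Polynomial.C_mul, Polynomial.C_neg, Polynomial.C_neg]
      ring
    have c2 : (C γ * (C (-(q : ℤ)) * X) + C δ : Polynomial ℤ) = C (-(q * γ)) * X + C δ := by
      rw [Polynomial.C_neg, Polynomial.C_neg, Polynomial.C_mul]
      ring
    rw [Polynomial.mul_comp, Polynomial.pow_comp, Polynomial.pow_comp, Polynomial.add_comp, Polynomial.add_comp,
      Polynomial.mul_comp, Polynomial.mul_comp, Polynomial.C_comp, Polynomial.C_comp, Polynomial.C_comp,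
      Polynomial.C_comp, Polynomial.X_comp, c1, c2, mul_pow, ← Polynomial.C_pow, neg_pow, mul_assoc]
  have e2 : ((q : ℤ) ^ i) • act 1 0 0 (q : ℤ) (pr I ((C α * X + C β') ^ i * (C (q * γ) * X + C δ) ^ (2 * a - i))) +
      ((-1 : ℤ) ^ (a + i) * (q : ℤ) ^ i) • act (-1) 0 0 (q : ℤ)
        (pr I ((C α * X + C (-β')) ^ i * (C (-(q * γ)) * X + C δ) ^ (2 * a - i))) =
      pr (PhiOf q a I) ((C α * X + C (q * β')) ^ i * (C γ * X + C δ) ^ (2 * a - i)) := by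
    funext x y
    rw [pr_phi, b1, b2, pr_C_mul, pr_C_mul]
    simp only [Pi.add_apply, Pi.smul_apply, act, smul_smul]
    have a1 : 1 * x + 0 * y = x := by ring
    have a2 : 0 * x + (q : ℤ) * y = q * y := by ring
    have a3 : -1 * x + 0 * y = -x := by ring
    rw [a1, a2, a3]
    congr 2
    rw [pow_add]
    ring
  rw [e1, e2] at h3
  exact h3

/-- the translation by `p` -/
private theorem tcase (hq : (q : ℤ) = 2 * p) (hq0 : (q : ℤ) ≠ 0) (h : IDataE p a ν I) (j : ℕ)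
    (hj : j ≤ 2 * a) :
    EqC (act 1 (p : ℤ) 0 1 (cp (PhiOf q a I) j)) (-pr (PhiOf q a I) ((X + C (p : ℤ)) ^ j)) := by
  have hA : ∀ x y : ℤ, (x ≠ 0 ∨ y ≠ 0) →
      pr I ((C (2 : ℤ) * X - C 1) ^ j) (x + p * y) (q * y) = -(((2 : ℤ) ^ j) • I x (q * y) j) := by
    intro x y hxy
    have h1 := h.t2 j hj x (q * y) (ne_vec hq0 hxy)
    rw [Finset.sum_range_succ, Finset.sum_range_one] at h1
    have h2 := homog_pr h ((C (2 : ℤ) * X - C ((0 : ℕ) : ℤ)) ^ j) ((deg_lin _ _ _).trans hj) 2 x (q * y)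
      two_ne_zero (ne_vec hq0 hxy)
    have h3 := homog_pr h ((C (2 : ℤ) * X - C ((1 : ℕ) : ℤ)) ^ j) ((deg_lin _ _ _).trans hj) 2 (x + p * y)
      (q * y) two_ne_zero (ne_vec2 hq0 p hxy)
    have e1 : 2 * x + ((0 : ℕ) : ℤ) * (q * y) = 2 * x := by push_cast; ring
    have e2 : 2 * x + ((1 : ℕ) : ℤ) * (q * y) = 2 * (x + p * y) := by rw [hq]; push_cast; ring
    have e3 : ((C (2 : ℤ) * X - C ((0 : ℕ) : ℤ)) ^ j : Polynomial ℤ) = C ((2 : ℤ) ^ j) * X ^ j := by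
      rw [Nat.cast_zero, Polynomial.C_0, sub_zero, mul_pow, Polynomial.C_pow]
    rw [e1, e2, h2, h3, e3, pr_C_mul, pr_X_pow] at h1
    rw [Nat.cast_one] at h1
    simp only [Pi.smul_apply, cp] at h1
    exact eq_neg_of_add_eq_zero_right h1
  obtain ⟨c, hc⟩ := trans1 h ((C (2 : ℤ) * X - C 1) ^ j) ((deg_lin _ _ _).trans hj)
  have e0 : ((C (2 : ℤ) * X - C 1) ^ j : Polynomial ℤ).comp (X + 1) = (C (2 : ℤ) * X + C 1) ^ j := by
    rw [Polynomial.pow_comp, Polynomial.sub_comp, Polynomial.mul_comp, Polynomial.C_comp, Polynomial.C_comp,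
      Polynomial.X_comp]
    congr 1
    have : (C (2 : ℤ) : Polynomial ℤ) = 2 := rfl
    rw [this, map_one]
    ring
  rw [e0] at hc
  refine ⟨-(((p : ℤ) ^ j) • c), fun x y hxy => ?_⟩
  have hxy' : x + p * y ≠ 0 ∨ y ≠ 0 := by
    by_cases hy : y = 0
    · left
      subst hy
      simpa using hxy
    · exact Or.inr hy
  have hxy'' : -(x + p * y) ≠ 0 ∨ y ≠ 0 := by
    rcases hxy' with h0 | h0
    · exact Or.inl (neg_ne_zero.2 h0)
    · exact Or.inr h0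
  have h1 := hA (x + p * y) y hxy'
  have h2 := hA (-(x + p * y)) y hxy''
  have h3 := hc x (q * y) (ne_vec hq0 hxy)
  simp only [act] at h3
  have f1 : 1 * x + 1 * ((q : ℤ) * y) = x + p * y + p * y := by rw [hq]; ring
  have f2 : 0 * x + 1 * ((q : ℤ) * y) = q * y := by ring
  have f3 : -(x + (p : ℤ) * y) + p * y = -x := by ring
  rw [f1, f2, h1] at h3
  rw [f3] at h2
  simp only [act, cp, PhiOf, Pi.neg_apply]
  have g1 : 1 * x + (p : ℤ) * y = x + p * y := by ring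
  have g2 : 0 * x + 1 * y = y := by ring
  rw [g1, g2, pr_phi]
  have k1 : ((X + C (p : ℤ)) ^ j : Polynomial ℤ).comp (C (q : ℤ) * X) =
      C ((p : ℤ) ^ j) * (C (2 : ℤ) * X + C 1) ^ j := by
    rw [Polynomial.pow_comp, Polynomial.add_comp, Polynomial.C_comp, Polynomial.X_comp, Polynomial.C_pow,
      ← mul_pow, hq, Polynomial.C_mul]
    congr 1
    rw [map_one]
    ring
  have k2 : ((X + C (p : ℤ)) ^ j : Polynomial ℤ).comp (C (-(q : ℤ)) * X) =
      C ((-1) ^ j * (p : ℤ) ^ j) * (C (2 : ℤ) * X - C 1) ^ j := by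
    rw [← mul_pow, Polynomial.pow_comp, Polynomial.add_comp, Polynomial.C_comp, Polynomial.X_comp,
      Polynomial.C_pow, ← mul_pow, hq, Polynomial.C_neg, Polynomial.C_mul, Polynomial.C_mul,
      Polynomial.C_neg]
    congr 1
    rw [map_one]
    ring
  rw [k1, k2, pr_C_mul, pr_C_mul]
  simp only [Pi.smul_apply]
  have h4 : pr I ((C (2 : ℤ) * X + C 1) ^ j) x (q * y) =
      -(((2 : ℤ) ^ j) • I (x + p * y) (q * y) j) - c := by
    rw [h3]
    ring
  rw [h4, h2, hq]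
  simp only [zsmul_eq_mul]
  push_cast
  rw [mul_pow, pow_add]
  ring

/-- the lower translation by `p^(ν+1)` -/
private theorem scase (hq : (q : ℤ) = 2 * p) (hq0 : (q : ℤ) ≠ 0) (h : IDataE p a ν I) (j : ℕ)
    (hj : j ≤ 2 * a) :
    EqC (act 1 0 ((p : ℤ) ^ (ν + 1)) 1 (cp (PhiOf q a I) j))
      (-pr (PhiOf q a I) (X ^ j * (C ((p : ℤ) ^ (ν + 1)) * X + C 1) ^ (2 * a - j))) := by
  obtain ⟨s, hs⟩ : ∃ s : ℤ, s = (p : ℤ) ^ (ν + 1) := ⟨_, rfl⟩
  have hs2 : 2 * (p : ℤ) ^ (ν + 2) = q * s := by rw [hs, hq]; ring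
  obtain ⟨C0, hC0⟩ := h.s2 j hj
  have hA : ∀ x y : ℤ, (x ≠ 0 ∨ y ≠ 0) →
      I x (q * y) j = C0 - pr I (X ^ j * (1 - C (q * s) * X) ^ (2 * a - j)) x (q * (s * x + y)) := by
    intro x y hxy
    have h1 := hC0 x (q * y) (ne_vec hq0 hxy)
    rw [Finset.sum_range_succ, Finset.sum_range_one, hs2] at h1
    have e1 : (q : ℤ) * s * ((0 : ℕ) : ℤ) = 0 := by push_cast; ring
    have e2 : (q : ℤ) * s * ((1 : ℕ) : ℤ) = q * s := by push_cast; ring
    have e3 : 0 * x + (q : ℤ) * y = q * y := by ring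
    have e4 : (q : ℤ) * s * x + q * y = q * (s * x + y) := by ring
    rw [e1, e2, e3, e4, Polynomial.C_0, zero_mul, sub_zero, one_pow, mul_one, pr_X_pow] at h1
    simp only [cp] at h1
    rw [← h1]
    ring
  obtain ⟨c, hc⟩ := trans2 h j hj (q * s) (2 * (q * s)) (by
    rw [← hs2]; exact ⟨1, by ring⟩)
  have e0 : (q : ℤ) * s - 2 * (q * s) = -(q * s) := by ring
  rw [e0] at hc
  rw [← hs]
  refine ⟨((q : ℤ) ^ j) • (C0 - c) + ((-1 : ℤ) ^ (a + j) * (q : ℤ) ^ j) • C0, fun x y hxy => ?_⟩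
  have hxy' : x ≠ 0 ∨ s * x + y ≠ 0 := by
    by_cases hx : x = 0
    · right
      subst hx
      simpa using hxy
    · exact Or.inl hx
  have hxy'' : -x ≠ 0 ∨ s * x + y ≠ 0 := by
    rcases hxy' with h0 | h0
    · exact Or.inl (neg_ne_zero.2 h0)
    · exact Or.inr h0
  have h1 := hA x (s * x + y) hxy'
  have h2 := hA (-x) (s * x + y) hxy''
  have h3 := hc x (q * y) (ne_vec hq0 hxy)
  simp only [act] at h3
  have f1 : 1 * x + 0 * ((q : ℤ) * y) = x := by ring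
  have f2 : 2 * ((q : ℤ) * s) * x + 1 * (q * y) = q * (s * x + (s * x + y)) := by ring
  have f3 : s * -x + (s * x + y) = y := by ring
  rw [f1, f2] at h3
  rw [h3] at h1
  rw [f3] at h2
  simp only [act, cp, PhiOf, Pi.neg_apply]
  have g1 : 1 * x + 0 * y = x := by ring
  have g2 : s * x + 1 * y = s * x + y := by ring
  rw [g1, g2, pr_phi, h1, h2]
  have k0 : ∀ t : ℤ, (X ^ j * (C s * X + C 1) ^ (2 * a - j) : Polynomial ℤ).comp (C t * X) =
      C (t ^ j) * (X ^ j * (1 - C (-(t * s)) * X) ^ (2 * a - j)) := by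
    intro t
    rw [Polynomial.mul_comp, Polynomial.pow_comp, Polynomial.pow_comp, Polynomial.add_comp,
      Polynomial.mul_comp, Polynomial.C_comp, Polynomial.X_comp, Polynomial.C_comp, mul_pow,
      Polynomial.C_pow, Polynomial.C_neg, Polynomial.C_mul, map_one, mul_assoc]
    congr 3
    ring
  have k1 : -(-(q : ℤ) * s) = q * s := by ring
  rw [k0, k0, pr_C_mul, pr_C_mul, k1]
  simp only [Pi.smul_apply]
  simp only [zsmul_eq_mul]
  push_cast
  rw [neg_pow (q : ℂ) j, pow_add]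
  ring

/-! ### products of matrices -/

private theorem lin {Φ : ℤ → ℤ → ℕ → ℂ} {α β γ δ : ℤ}
    (h : ∀ i : ℕ, i ≤ 2 * a → EqC (act α β γ δ (cp Φ i)) (eps α β γ δ •
      pr Φ ((C α * X + C β) ^ i * (C γ * X + C δ) ^ (2 * a - i))))
    (F : Finset ℕ) (b : ℕ → ℤ) (e : ℕ → ℕ) (he : ∀ k ∈ F, e k ≤ 2 * a) :
    EqC (act α β γ δ (pr Φ (∑ k ∈ F, C (b k) * X ^ (e k))))
      (eps α β γ δ • pr Φ (∑ k ∈ F, C (b k) *
        ((C α * X + C β) ^ e k * (C γ * X + C δ) ^ (2 * a - e k)))) := by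
  rw [pr_sum, pr_sum, Finset.smul_sum]
  have h1 : act α β γ δ (∑ k ∈ F, pr Φ (C (b k) * X ^ (e k))) =
      ∑ k ∈ F, b k • act α β γ δ (cp Φ (e k)) := by
    funext x y
    simp only [act, Finset.sum_apply, pr_C_mul, pr_X_pow, Pi.smul_apply]
  rw [h1]
  refine Pool.Agent.Helper28.WK.EqC.sum F fun k hk => ?_
  rw [pr_C_mul, smul_comm]
  exact (h (e k) (he k hk)).smul (b k)

private theorem stepT {Φ : ℤ → ℤ → ℕ → ℂ} (s : ℤ) (hs : ¬ (2 : ℤ) ∣ s)
    (hT : ∀ j : ℕ, j ≤ 2 * a → EqC (act 1 s 0 1 (cp Φ j)) (-pr Φ ((X + C s) ^ j)))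
    {α β γ δ : ℤ} (hd : α * δ - β * γ = 1)
    (h : ∀ i : ℕ, i ≤ 2 * a → EqC (act (α - s * γ) (β - s * δ) γ δ (cp Φ i))
      (eps (α - s * γ) (β - s * δ) γ δ •
      pr Φ ((C (α - s * γ) * X + C (β - s * δ)) ^ i * (C γ * X + C δ) ^ (2 * a - i)))) :
    ∀ i : ℕ, i ≤ 2 * a → EqC (act α β γ δ (cp Φ i)) (eps α β γ δ •
      pr Φ ((C α * X + C β) ^ i * (C γ * X + C δ) ^ (2 * a - i))) := by
  intro i hi
  have hd0 : (α - s * γ) * δ - (β - s * δ) * γ = 1 := by linear_combination hd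
  have hdet : (α - s * γ) * δ - (β - s * δ) * γ ≠ 0 := by rw [hd0]; exact one_ne_zero
  have o1 : ¬ (2 : ℤ) ∣ (α - s * γ) * δ - (β - s * δ) * γ := by rw [hd0]; decide
  have m := eps_mul (a := 1) (b := s) (c := 0) (d := 1) (a' := α - s * γ) (b' := β - s * δ)
    (c' := γ) (d' := δ) (by norm_num) o1
  have eT : eps 1 s 0 1 = -1 := by
    have : eps 1 s 0 1 = eps 1 1 0 1 := by
      apply eps_mod <;> omega
    rw [this]; decide
  have i1 : 1 * (α - s * γ) + s * γ = α := by ring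
  have i2 : 1 * (β - s * δ) + s * δ = β := by ring
  have i3 : 0 * (α - s * γ) + 1 * γ = γ := by ring
  have i4 : 0 * (β - s * δ) + 1 * δ = δ := by ring
  rw [i1, i2, i3, i4, eT] at m
  have h1 := (hT i hi).act (a := α - s * γ) (b := β - s * δ) (c := γ) (d := δ) hdet
  rw [act_act, i1, i2, i3, i4, act_neg] at h1
  have h2 := lin h (Finset.range (i + 1)) (fun k => s ^ (i - k) * (i.choose k : ℤ)) (fun k => k)
    (fun k hk => by
      rw [Finset.mem_range] at hk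
      show k ≤ 2 * a
      omega)
  have h3 : ∑ k ∈ Finset.range (i + 1), C (s ^ (i - k) * (i.choose k : ℤ)) * X ^ k =
      ((X + C s) ^ i : Polynomial ℤ) := by
    rw [add_pow]
    refine Finset.sum_congr rfl fun k _ => ?_
    rw [Polynomial.C_mul, Polynomial.C_pow, map_natCast]
    ring
  have h4 : ∑ k ∈ Finset.range (i + 1), C (s ^ (i - k) * (i.choose k : ℤ)) *
      ((C (α - s * γ) * X + C (β - s * δ)) ^ k * (C γ * X + C δ) ^ (2 * a - k)) =
      ((C α * X + C β) ^ i * (C γ * X + C δ) ^ (2 * a - i) : Polynomial ℤ) := by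
    have e : (C α * X + C β : Polynomial ℤ) =
        (C (α - s * γ) * X + C (β - s * δ)) + C s * (C γ * X + C δ) := by
      simp only [Polynomial.C_sub, Polynomial.C_mul]
      ring
    rw [e, add_pow, Finset.sum_mul]
    refine Finset.sum_congr rfl fun k hk => ?_
    rw [Finset.mem_range] at hk
    have e2 : 2 * a - k = (i - k) + (2 * a - i) := by omega
    rw [e2, pow_add, mul_pow, Polynomial.C_mul, Polynomial.C_pow, map_natCast]
    ring
  simp only [h3, h4] at h2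
  have h5 := h1.trans h2.neg
  rw [m]
  rwa [neg_one_mul, neg_smul]

private theorem stepS {Φ : ℤ → ℤ → ℕ → ℂ} (s : ℤ) (hs : ¬ (2 : ℤ) ∣ s)
    (hS : ∀ j : ℕ, j ≤ 2 * a → EqC (act 1 0 s 1 (cp Φ j))
      (-pr Φ (X ^ j * (C s * X + C 1) ^ (2 * a - j))))
    {α β γ δ : ℤ} (hd : α * δ - β * γ = 1)
    (h : ∀ i : ℕ, i ≤ 2 * a → EqC (act α β (γ - s * α) (δ - s * β) (cp Φ i))
      (eps α β (γ - s * α) (δ - s * β) •
      pr Φ ((C α * X + C β) ^ i * (C (γ - s * α) * X + C (δ - s * β)) ^ (2 * a - i)))) :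
    ∀ i : ℕ, i ≤ 2 * a → EqC (act α β γ δ (cp Φ i)) (eps α β γ δ •
      pr Φ ((C α * X + C β) ^ i * (C γ * X + C δ) ^ (2 * a - i))) := by
  intro i hi
  have hd0 : α * (δ - s * β) - β * (γ - s * α) = 1 := by linear_combination hd
  have hdet : α * (δ - s * β) - β * (γ - s * α) ≠ 0 := by rw [hd0]; exact one_ne_zero
  have o1 : ¬ (2 : ℤ) ∣ α * (δ - s * β) - β * (γ - s * α) := by rw [hd0]; decide
  have m := eps_mul (a := 1) (b := 0) (c := s) (d := 1) (a' := α) (b' := β)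
    (c' := γ - s * α) (d' := δ - s * β) (by norm_num) o1
  have eT : eps 1 0 s 1 = -1 := by
    have : eps 1 0 s 1 = eps 1 0 1 1 := by
      apply eps_mod <;> omega
    rw [this]; decide
  have i1 : 1 * α + 0 * (γ - s * α) = α := by ring
  have i2 : 1 * β + 0 * (δ - s * β) = β := by ring
  have i3 : s * α + 1 * (γ - s * α) = γ := by ring
  have i4 : s * β + 1 * (δ - s * β) = δ := by ring
  rw [i1, i2, i3, i4, eT] at m
  have h1 := (hS i hi).act (a := α) (b := β) (c := γ - s * α) (d := δ - s * β) hdet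
  rw [act_act, i1, i2, i3, i4, act_neg] at h1
  have h2 := lin h (Finset.range (2 * a - i + 1)) (fun k => s ^ k * ((2 * a - i).choose k : ℤ))
    (fun k => i + k) (fun k hk => by
      rw [Finset.mem_range] at hk
      show i + k ≤ 2 * a
      omega)
  have h3 : ∑ k ∈ Finset.range (2 * a - i + 1), C (s ^ k * ((2 * a - i).choose k : ℤ)) * X ^ (i + k) =
      (X ^ i * (C s * X + C 1) ^ (2 * a - i) : Polynomial ℤ) := by
    rw [add_pow, Finset.mul_sum]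
    refine Finset.sum_congr rfl fun k _ => ?_
    rw [map_one, one_pow, mul_pow, Polynomial.C_mul, Polynomial.C_pow, pow_add, map_natCast]
    ring
  have h4 : ∑ k ∈ Finset.range (2 * a - i + 1), C (s ^ k * ((2 * a - i).choose k : ℤ)) *
      ((C α * X + C β) ^ (i + k) * (C (γ - s * α) * X + C (δ - s * β)) ^ (2 * a - (i + k))) =
      ((C α * X + C β) ^ i * (C γ * X + C δ) ^ (2 * a - i) : Polynomial ℤ) := by
    have e : (C γ * X + C δ : Polynomial ℤ) =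
        C s * (C α * X + C β) + (C (γ - s * α) * X + C (δ - s * β)) := by
      simp only [Polynomial.C_sub, Polynomial.C_mul]
      ring
    rw [e, add_pow (C s * (C α * X + C β)) (C (γ - s * α) * X + C (δ - s * β)) (2 * a - i),
      Finset.mul_sum]
    refine Finset.sum_congr rfl fun k _ => ?_
    rw [mul_pow, Polynomial.C_mul, Polynomial.C_pow, Nat.sub_add_eq, map_natCast, pow_add]
    ring
  simp only [h3, h4] at h2
  have h5 := h1.trans h2.neg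
  rw [m]
  rwa [neg_one_mul, neg_smul]

private theorem odd_of {x y z w : ℤ} (hd : x * w - y * z = 1) (hz : (2 : ℤ) ∣ z) : ¬ (2 : ℤ) ∣ x := by
  intro hx
  have : (2 : ℤ) ∣ 1 := by rw [← hd]; exact dvd_sub (hx.mul_right w) (hz.mul_left y)
  exact absurd this (by decide)

private theorem even_sub {s x y : ℤ} (hs : ¬ (2 : ℤ) ∣ s) (hx : ¬ (2 : ℤ) ∣ x) (hy : ¬ (2 : ℤ) ∣ y) :
    (2 : ℤ) ∣ x - s * y := by
  obtain ⟨k, hk⟩ : ∃ k, s = 2 * k + 1 := ⟨s / 2, by omega⟩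
  obtain ⟨l, hl⟩ : ∃ l, y = 2 * l + 1 := ⟨y / 2, by omega⟩
  obtain ⟨m, hm⟩ : ∃ m, x = 2 * m + 1 := ⟨x / 2, by omega⟩
  exact ⟨m - 2 * k * l - k - l, by rw [hk, hl, hm]; ring⟩

private theorem odd_sub {s x y : ℤ} (hs : ¬ (2 : ℤ) ∣ s) (hx : (2 : ℤ) ∣ x) (hy : ¬ (2 : ℤ) ∣ y) :
    ¬ (2 : ℤ) ∣ x - s * y := by
  intro h
  have h1 : (2 : ℤ) ∣ s * y := by
    have := dvd_sub hx h
    rwa [sub_sub_cancel] at this
  rcases (Int.prime_two.dvd_mul.1 h1) with h2 | h2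
  · exact hs h2
  · exact hy h2

/-- all matrices of the group -/
private theorem eqvE (hp : p.Prime) (hp2 : p ≠ 2) (hq : (q : ℤ) = 2 * p) (hq0 : (q : ℤ) ≠ 0)
    (h : IDataE p a ν I) : ∀ α β γ δ : ℤ, α * δ - β * γ = 1 → (p : ℤ) ∣ β →
    (p : ℤ) ^ (ν + 1) ∣ γ → ∀ i : ℕ, i ≤ 2 * a →
    EqC (act α β γ δ (cp (PhiOf q a I) i)) (eps α β γ δ • pr (PhiOf q a I) ((C α * X + C β) ^ i *
      (C γ * X + C δ) ^ (2 * a - i))) := by
  have hodd : Odd (p : ℤ) := by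
    have := hp.odd_of_ne_two hp2
    exact_mod_cast this
  have hsp : ¬ (2 : ℤ) ∣ (p : ℤ) := by
    rw [← even_iff_two_dvd, Int.not_even_iff_odd]
    exact hodd
  have hss : ¬ (2 : ℤ) ∣ (p : ℤ) ^ (ν + 1) := by
    rw [← even_iff_two_dvd, Int.not_even_iff_odd]
    exact hodd.pow
  have base : ∀ α β γ δ : ℤ, α * δ - β * γ = 1 → (p : ℤ) ∣ β → (p : ℤ) ^ (ν + 1) ∣ γ →
      (2 : ℤ) ∣ β → (2 : ℤ) ∣ γ → ∀ i : ℕ, i ≤ 2 * a →
      EqC (act α β γ δ (cp (PhiOf q a I) i)) (eps α β γ δ • pr (PhiOf q a I)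
        ((C α * X + C β) ^ i * (C γ * X + C δ) ^ (2 * a - i))) := by
    intro α β γ δ hd hβ hγ b2 c2 i hi
    rw [eps_id b2 c2, one_smul]
    refine p_eqv hq0 h α β γ δ hd ?_ ?_ i hi
    · rw [hq]
      obtain ⟨b', rfl⟩ := hβ
      rcases Int.prime_two.dvd_mul.1 b2 with h0 | ⟨b'', rfl⟩
      · exact absurd h0 hsp
      · exact ⟨b'', by ring⟩
    · rw [hq]
      obtain ⟨c', rfl⟩ := hγ
      rcases Int.prime_two.dvd_mul.1 c2 with h0 | ⟨c'', rfl⟩
      · exact absurd h0 hss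
      · exact ⟨c'', by ring⟩
  have hT := tcase hq hq0 h
  have hS := scase hq hq0 h
  have s1 : ∀ α β γ δ : ℤ, α * δ - β * γ = 1 → (p : ℤ) ∣ β → (p : ℤ) ^ (ν + 1) ∣ γ →
      (2 : ℤ) ∣ γ → ∀ i : ℕ, i ≤ 2 * a →
      EqC (act α β γ δ (cp (PhiOf q a I) i)) (eps α β γ δ • pr (PhiOf q a I)
        ((C α * X + C β) ^ i * (C γ * X + C δ) ^ (2 * a - i))) := by
    intro α β γ δ hd hβ hγ c2
    by_cases b2 : (2 : ℤ) ∣ β
    · exact base α β γ δ hd hβ hγ b2 c2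
    · have hδ : ¬ (2 : ℤ) ∣ δ := odd_of (x := δ) (y := β) (z := γ) (w := α)
        (by linear_combination hd) c2
      exact stepT (p : ℤ) hsp hT hd (base (α - p * γ) (β - p * δ) γ δ (by linear_combination hd)
        (dvd_sub hβ (Dvd.intro _ rfl)) hγ (even_sub hsp b2 hδ) c2)
  have s2 : ∀ α β γ δ : ℤ, α * δ - β * γ = 1 → (p : ℤ) ∣ β → (p : ℤ) ^ (ν + 1) ∣ γ →
      ¬ (2 : ℤ) ∣ α → ∀ i : ℕ, i ≤ 2 * a →
      EqC (act α β γ δ (cp (PhiOf q a I) i)) (eps α β γ δ • pr (PhiOf q a I)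
        ((C α * X + C β) ^ i * (C γ * X + C δ) ^ (2 * a - i))) := by
    intro α β γ δ hd hβ hγ ha
    by_cases c2 : (2 : ℤ) ∣ γ
    · exact s1 α β γ δ hd hβ hγ c2
    · exact stepS ((p : ℤ) ^ (ν + 1)) hss hS hd (s1 α β (γ - (p : ℤ) ^ (ν + 1) * α)
        (δ - (p : ℤ) ^ (ν + 1) * β) (by linear_combination hd) hβ
        (dvd_sub hγ (Dvd.intro _ rfl)) (even_sub hss c2 ha))
  intro α β γ δ hd hβ hγ
  by_cases ha : (2 : ℤ) ∣ α
  · have hc : ¬ (2 : ℤ) ∣ γ := by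
      intro hc
      exact odd_of hd hc ha
    exact stepT (p : ℤ) hsp hT hd (s2 (α - p * γ) (β - p * δ) γ δ (by linear_combination hd)
        (dvd_sub hβ (Dvd.intro _ rfl)) hγ (odd_sub hsp ha hc))
  · exact s2 α β γ δ hd hβ hγ ha

/-! ### the other relations -/

private theorem p_tt (hp : p.Prime) (hq : (q : ℤ) = 2 * p) (hq0 : (q : ℤ) ≠ 0) (h : IDataE p a ν I) :
    ∀ j : ℕ, j ≤ 2 * a → EqC (fun x y => ∑ i ∈ Finset.range p,
    pr (PhiOf q a I) ((X - C (2 * i : ℤ)) ^ j) (x + 2 * i * y) y) 0 := by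
  intro j hj
  have hp0 : (p : ℤ) ≠ 0 := by exact_mod_cast hp.ne_zero
  have hS : ∀ x y : ℤ, (x ≠ 0 ∨ y ≠ 0) → ∑ i ∈ Finset.range p,
      pr I ((C (p : ℤ) * X - C (i : ℤ)) ^ j) (x + 2 * i * y) (q * y) = 0 := by
    intro x y hxy
    have h1 := h.tt j hj x (q * y) (ne_vec hq0 hxy)
    rw [← h1]
    refine Finset.sum_congr rfl fun i _ => ?_
    have h2 := homog_pr h ((C (p : ℤ) * X - C (i : ℤ)) ^ j) ((deg_lin _ _ _).trans hj) p (x + 2 * i * y) (q * y)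
      hp0 (ne_vec2 hq0 (2 * i) hxy)
    rw [← h2]
    congr 1
    rw [hq]
    ring
  set T : ℤ → ℤ → ℤ → ℂ := fun i => act (-1) (2 * i) 0 q (pr I ((C (p : ℤ) * X - C i) ^ j)) with hT
  have hper : ∀ i : ℤ, EqC (T (i + p)) (T i) := by
    intro i
    have h1 := trans1 h ((C (p : ℤ) * X - C (i + p)) ^ j) ((deg_lin _ _ _).trans hj)
    have h2 := h1.act (a := -1) (b := 2 * i) (c := 0) (d := (q : ℤ)) (by simpa using hq0)
    rw [act_act] at h2
    have e1 : ((C (p : ℤ) * X - C (i + p)) ^ j : Polynomial ℤ).comp (X + 1) = (C (p : ℤ) * X - C i) ^ j := by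
      rw [Polynomial.pow_comp, Polynomial.sub_comp, Polynomial.mul_comp, Polynomial.C_comp, Polynomial.C_comp,
        Polynomial.X_comp, Polynomial.C_add]
      congr 1
      ring
    rw [e1] at h2
    have e2 : (1 : ℤ) * -1 + 1 * 0 = -1 := by norm_num
    have e3 : 1 * (2 * i) + 1 * (q : ℤ) = 2 * (i + p) := by rw [hq]; ring
    have e4 : (0 : ℤ) * -1 + 1 * 0 = 0 := by norm_num
    have e5 : 0 * (2 * i) + 1 * (q : ℤ) = q := by ring
    rw [e2, e3, e4, e5] at h2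
    exact h2
  have h0 : EqC (∑ i ∈ Finset.range p, T (i : ℤ)) 0 := by
    refine ⟨0, fun x y hxy => ?_⟩
    simp only [Finset.sum_apply, Pi.zero_apply, zero_add]
    rw [← hS (-x) y (by simpa using hxy)]
    refine Finset.sum_congr rfl fun i _ => ?_
    simp only [hT, act]
    congr 1 <;> ring
  have h1 : EqC (∑ i ∈ Finset.range p, T (-(i : ℤ))) 0 := (sum_neg_idx p T hper).trans h0
  obtain ⟨c', hc'⟩ := h1
  refine ⟨((-1 : ℤ) ^ (a + j) * 2 ^ j) • c', fun x y hxy => ?_⟩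
  have h2 := hS x y hxy
  have h3 := hc' x y hxy
  simp only [Pi.zero_apply, zero_add] at h3 ⊢
  have h4 : ((2 : ℤ) ^ j) • ∑ i ∈ Finset.range p,
      pr I ((C (p : ℤ) * X - C (i : ℤ)) ^ j) (x + 2 * i * y) (q * y) = 0 := by
    rw [h2, smul_zero]
  rw [← zero_add (((-1 : ℤ) ^ (a + j) * 2 ^ j) • c'), ← h4, ← h3, Finset.sum_apply, Finset.sum_apply,
    Finset.smul_sum, Finset.smul_sum, ← Finset.sum_add_distrib]
  refine Finset.sum_congr rfl fun i _ => ?_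
  rw [pr_phi]
  have e1 : ((X - C (2 * i : ℤ)) ^ j : Polynomial ℤ).comp (C (q : ℤ) * X) =
      C ((2 : ℤ) ^ j) * (C (p : ℤ) * X - C (i : ℤ)) ^ j := by
    rw [Polynomial.pow_comp, Polynomial.sub_comp, Polynomial.C_comp, Polynomial.X_comp, Polynomial.C_pow,
      ← mul_pow, hq, Polynomial.C_mul, Polynomial.C_mul]
    congr 1
    ring
  have e2 : ((X - C (2 * i : ℤ)) ^ j : Polynomial ℤ).comp (C (-(q : ℤ)) * X) =
      C ((-1) ^ j * 2 ^ j) * (C (p : ℤ) * X - C (-(i : ℤ))) ^ j := by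
    rw [← mul_pow, Polynomial.pow_comp, Polynomial.sub_comp, Polynomial.C_comp, Polynomial.X_comp,
      Polynomial.C_pow, ← mul_pow, hq]
    congr 1
    simp only [Polynomial.C_neg, Polynomial.C_mul, map_one]
    ring
  rw [e1, e2, pr_C_mul, pr_C_mul]
  simp only [Pi.smul_apply, hT, act, smul_smul]
  have a1 : -(x + 2 * (i : ℤ) * y) = -1 * x + 2 * -(i : ℤ) * y := by ring
  have a2 : 0 * x + (q : ℤ) * y = q * y := by ring
  have a3 : (-1 : ℤ) ^ a * ((-1) ^ j * 2 ^ j) = (-1) ^ (a + j) * 2 ^ j := by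
    rw [pow_add]
    ring
  rw [a1, a2, a3]

private theorem p_ss (hq : (q : ℤ) = 2 * p) (hq0 : (q : ℤ) ≠ 0) (h : IDataE p a ν I) :
    ∀ j : ℕ, j ≤ 2 * a → EqC (fun x y => ∑ i ∈ Finset.range p,
    pr (PhiOf q a I) (X ^ j * (1 - C (2 * (p : ℤ) ^ ν * i) * X) ^ (2 * a - j))
      x (2 * (p : ℤ) ^ ν * i * x + y)) 0 := by
  intro j hj
  set T : ℤ → ℤ → ℤ → ℂ := fun i => act 1 0 (4 * (p : ℤ) ^ (ν + 1) * i) 1
    (pr I (X ^ j * (1 - C (4 * (p : ℤ) ^ (ν + 1) * i) * X) ^ (2 * a - j))) with hT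
  have h0 : EqC (∑ i ∈ Finset.range p, T (i : ℤ)) 0 := by
    obtain ⟨c, hc⟩ := h.ss j hj
    refine ⟨c, fun x y hxy => ?_⟩
    rw [Pi.zero_apply, Pi.zero_apply, zero_add, ← hc x y hxy, Finset.sum_apply, Finset.sum_apply]
    refine Finset.sum_congr rfl fun i _ => ?_
    simp only [hT, act]
    congr 1 <;> ring
  have hper : ∀ i : ℤ, EqC (T (i + p)) (T i) := by
    intro i
    have h1 := trans2 h j hj (4 * (p : ℤ) ^ (ν + 1) * (i + p)) (4 * (p : ℤ) ^ (ν + 2)) (dvd_refl _)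
    have h2 := h1.act (a := 1) (b := 0) (c := 4 * (p : ℤ) ^ (ν + 1) * i) (d := 1) (by norm_num)
    rw [act_act] at h2
    have e1 : 4 * (p : ℤ) ^ (ν + 1) * (i + p) - 4 * (p : ℤ) ^ (ν + 2) = 4 * (p : ℤ) ^ (ν + 1) * i := by ring
    have e2 : (1 : ℤ) * 1 + 0 * (4 * (p : ℤ) ^ (ν + 1) * i) = 1 := by ring
    have e3 : (1 : ℤ) * 0 + 0 * 1 = 0 := by norm_num
    have e4 : 4 * (p : ℤ) ^ (ν + 2) * 1 + 1 * (4 * (p : ℤ) ^ (ν + 1) * i) =
        4 * (p : ℤ) ^ (ν + 1) * (i + p) := by ring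
    have e5 : 4 * (p : ℤ) ^ (ν + 2) * 0 + 1 * 1 = 1 := by ring
    rw [e1, e2, e3, e4, e5] at h2
    exact h2
  have h1 : EqC (∑ i ∈ Finset.range p, T (-(i : ℤ))) 0 := (sum_neg_idx p T hper).trans h0
  obtain ⟨c, hc⟩ := h0
  obtain ⟨c', hc'⟩ := h1
  refine ⟨((q : ℤ) ^ j) • c + ((-1 : ℤ) ^ a * (-(q : ℤ)) ^ j) • c', fun x y hxy => ?_⟩
  have h2 := hc x (q * y) (ne_vec hq0 hxy)
  have h3 := hc' (-x) (q * y) (ne_vec hq0 (by simpa using hxy))
  simp only [Pi.zero_apply, zero_add] at h2 h3 ⊢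
  rw [← h2, ← h3, Finset.sum_apply, Finset.sum_apply, Finset.sum_apply, Finset.sum_apply, Finset.smul_sum,
    Finset.smul_sum, ← Finset.sum_add_distrib]
  refine Finset.sum_congr rfl fun i _ => ?_
  rw [pr_phi]
  have e0 : ∀ t : ℤ, (X ^ j * (1 - C (2 * (p : ℤ) ^ ν * i) * X) ^ (2 * a - j) : Polynomial ℤ).comp (C t * X) =
      C (t ^ j) * (X ^ j * (1 - C (2 * (p : ℤ) ^ ν * i * t) * X) ^ (2 * a - j)) := by
    intro t
    rw [Polynomial.mul_comp, Polynomial.pow_comp, Polynomial.pow_comp, Polynomial.sub_comp, Polynomial.mul_comp,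
      Polynomial.C_comp, Polynomial.X_comp, Polynomial.one_comp, mul_pow, Polynomial.C_pow,
      Polynomial.C_mul (a := 2 * (p : ℤ) ^ ν * i)]
    ring
  rw [e0, e0, pr_C_mul, pr_C_mul]
  simp only [Pi.smul_apply, hT, act, smul_smul]
  have a1 : 2 * (p : ℤ) ^ ν * i * q = 4 * (p : ℤ) ^ (ν + 1) * i := by rw [hq]; ring
  have a2 : 2 * (p : ℤ) ^ ν * i * -q = 4 * (p : ℤ) ^ (ν + 1) * -i := by rw [hq]; ring
  have a3 : q * (2 * (p : ℤ) ^ ν * i * x + y) = 4 * (p : ℤ) ^ (ν + 1) * i * x + 1 * (q * y) := by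
    rw [hq]; ring
  have a4 : 4 * (p : ℤ) ^ (ν + 1) * i * x + 1 * (q * y) =
      4 * (p : ℤ) ^ (ν + 1) * -i * -x + 1 * (q * y) := by ring
  have a5 : 1 * x + 0 * (q * y) = x := by ring
  have a6 : 1 * -x + 0 * (q * y) = -x := by ring
  rw [a1, a2, a3, a5, a6]
  congr 2
  rw [a4]

private theorem p_fr (hp : p.Prime) (hq : (q : ℤ) = 2 * p) (hq0 : (q : ℤ) ≠ 0) (h : IDataE p a ν I) :
    EqC (act 0 (-1) ((p : ℤ) ^ ν) 0 (cp (PhiOf q a I) a)) (-(cp (PhiOf q a I) a)) := by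
  obtain ⟨c, hc⟩ := h.fr
  have hH := h.hom a (by omega)
  have hp0 : (p : ℤ) ≠ 0 := by exact_mod_cast hp.ne_zero
  refine ⟨(2 * (q : ℤ) ^ a) • c, fun x y hxy => ?_⟩
  have hn1 : x ≠ 0 ∨ (q : ℤ) * y ≠ 0 := ne_vec hq0 hxy
  have hn2 : -x ≠ 0 ∨ (q : ℤ) * y ≠ 0 := ne_vec hq0 (by simpa using hxy)
  have hp1 : 2 * (p : ℤ) ^ (ν + 1) ≠ 0 := mul_ne_zero two_ne_zero (pow_ne_zero _ hp0)
  have h1 := hc x (q * y) hn1
  have h2 := hc (-x) (q * y) hn2
  have hv1 : -y ≠ 0 ∨ 2 * (p : ℤ) ^ (ν + 1) * x ≠ 0 := by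
    rcases hxy with hx | hy
    · exact Or.inr (mul_ne_zero hp1 hx)
    · exact Or.inl (neg_ne_zero.2 hy)
  have hv2 : y ≠ 0 ∨ 2 * (p : ℤ) ^ (ν + 1) * x ≠ 0 := by
    rcases hxy with hx | hy
    · exact Or.inr (mul_ne_zero hp1 hx)
    · exact Or.inl hy
  have h3 := hH q (-y) (2 * (p : ℤ) ^ (ν + 1) * x) hq0 hv1
  have h4 := hH (-q) y (2 * (p : ℤ) ^ (ν + 1) * x) (neg_ne_zero.2 hq0) hv2
  simp only [act, cp, Pi.neg_apply] at h1 h2 h3 h4
  have e1 : (0 : ℤ) * x + -1 * (q * y) = q * -y := by ring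
  have e2 : 4 * (p : ℤ) ^ (ν + 2) * x + 0 * (q * y) = q * (2 * (p : ℤ) ^ (ν + 1) * x) := by
    rw [hq]; ring
  have e3 : (0 : ℤ) * -x + -1 * (q * y) = -q * y := by ring
  have e4 : 4 * (p : ℤ) ^ (ν + 2) * -x + 0 * (q * y) = -q * (2 * (p : ℤ) ^ (ν + 1) * x) := by
    rw [hq]; ring
  rw [e1, e2, h3] at h1
  rw [e3, e4, h4] at h2
  simp only [act, cp, Pi.neg_apply, PhiOf]
  have e5 : (0 : ℤ) * x + -1 * y = -y := by ring
  have e6 : (q : ℤ) * ((p : ℤ) ^ ν * x + 0 * y) = 2 * (p : ℤ) ^ (ν + 1) * x := by rw [hq]; ring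
  have e7 : (-1 : ℤ) ^ (a + a) = 1 := Even.neg_one_pow ⟨a, rfl⟩
  rw [e5, e6, neg_neg, h1, h2, e7, one_mul, smul_add, smul_add, smul_neg, smul_neg, mul_smul, two_smul]
  abel

private theorem p_st (_h : IDataE p a ν I) :
    EqC (act (-1) 0 0 1 (cp (PhiOf q a I) a)) (cp (PhiOf q a I) a) := by
  refine EqC.of_eq fun x y _ => ?_
  simp only [act, cp, PhiOf]
  have e1 : -1 * x + 0 * y = -x := by ring
  have e2 : 0 * x + 1 * y = y := by ring
  have e7 : (-1 : ℤ) ^ (a + a) = 1 := Even.neg_one_pow ⟨a, rfl⟩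
  rw [e1, e2, neg_neg, e7, one_mul, add_comm]

/-- the Hecke operators multiply the symmetrised potentials by constants -/
private theorem hecke (hp : p.Prime) (hq : (q : ℤ) = 2 * p) (hq0 : (q : ℤ) ≠ 0) (h : IDataE p a ν I) :
    ∃ lam : ℕ → ℂ, ∀ (M : ℕ), 1 ≤ M → ∀ l : ℕ, l.Prime → l ≠ p → l ≠ 2 →
    ∀ i : ℕ, i ≤ 2 * a → ∀ x y : ℤ, (x ≠ 0 ∨ y ≠ 0) →
    WT a l (2 * (p : ℤ) ^ M) (PhiOf q a I) x y i = lam l * PhiOf q a I x y i := by
  obtain ⟨lam, hlam⟩ := h.hk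
  refine ⟨lam, fun M hM l hl hlp hl2 i hi x y hxy => ?_⟩
  obtain ⟨K, rfl⟩ : ∃ K, M = K + 1 := ⟨M - 1, by omega⟩
  have hcop : IsCoprime ((p : ℤ) ^ K) (l : ℤ) := by
    refine IsCoprime.pow_left ?_
    rw [Nat.isCoprime_iff_coprime]
    exact (Nat.coprime_primes hp hl).2 (Ne.symm hlp)
  have hcop' : IsCoprime (-(p : ℤ) ^ K) (l : ℤ) := hcop.neg_left
  have h1 := hlam l ((p : ℤ) ^ K) hl hlp hl2 hcop i hi x (q * y) (ne_vec hq0 hxy)
  have h2 := hlam l (-(p : ℤ) ^ K) hl hlp hl2 hcop' i hi (-x) (q * y) (ne_vec hq0 (by simpa using hxy))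
  have hq1 : ∀ j : ℕ, 2 * (p : ℤ) ^ (K + 1) * j = q * ((p : ℤ) ^ K * j) := by
    intro j
    rw [hq]
    ring
  have e1 : ∀ j : ℕ, ((C (l : ℤ) * X - C (2 * (p : ℤ) ^ (K + 1) * j)) ^ i : Polynomial ℤ).comp (C (q : ℤ) * X) =
      C ((q : ℤ) ^ i) * (C (l : ℤ) * X - C ((p : ℤ) ^ K * j)) ^ i := by
    intro j
    rw [Polynomial.pow_comp, Polynomial.sub_comp, Polynomial.mul_comp, Polynomial.C_comp, Polynomial.X_comp,
      Polynomial.C_comp, Polynomial.C_pow, ← mul_pow]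
    congr 1
    rw [hq1, Polynomial.C_mul (a := (q : ℤ))]
    ring
  have e2 : ∀ j : ℕ, ((C (l : ℤ) * X - C (2 * (p : ℤ) ^ (K + 1) * j)) ^ i : Polynomial ℤ).comp (C (-(q : ℤ)) * X) =
      C ((-1) ^ i * (q : ℤ) ^ i) * (C (l : ℤ) * X - C (-(p : ℤ) ^ K * j)) ^ i := by
    intro j
    rw [← mul_pow, Polynomial.pow_comp, Polynomial.sub_comp, Polynomial.mul_comp, Polynomial.C_comp, Polynomial.X_comp,
      Polynomial.C_comp, Polynomial.C_pow, ← mul_pow]
    congr 1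
    have e3 : 2 * (p : ℤ) ^ (K + 1) * j = (-1 * q) * (-(p : ℤ) ^ K * j) := by rw [hq]; ring
    have e4 : (-(q : ℤ)) = -1 * q := by ring
    rw [e3, e4, Polynomial.C_mul (a := (-1 * (q : ℤ)))]
    ring
  have key : WT a l (2 * (p : ℤ) ^ (K + 1)) (PhiOf q a I) x y i =
      ((q : ℤ) ^ i) • ((∑ j ∈ Finset.range l, pr I ((C (l : ℤ) * X - C ((p : ℤ) ^ K * j)) ^ i)
        (x + (p : ℤ) ^ K * j * (q * y)) (l * (q * y))) + ((l : ℤ) ^ (2 * a - i)) • I (l * x) (q * y) i) +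
      ((-1 : ℤ) ^ (a + i) * (q : ℤ) ^ i) • ((∑ j ∈ Finset.range l, pr I ((C (l : ℤ) * X - C (-(p : ℤ) ^ K * j)) ^ i)
        (-x + -(p : ℤ) ^ K * j * (q * y)) (l * (q * y))) + ((l : ℤ) ^ (2 * a - i)) • I (l * -x) (q * y) i) := by
    simp only [WT]
    have h3 : ∀ j ∈ Finset.range l, pr (PhiOf q a I) ((C (l : ℤ) * X - C (2 * (p : ℤ) ^ (K + 1) * j)) ^ i)
        (x + 2 * (p : ℤ) ^ (K + 1) * j * y) (l * y) =
        ((q : ℤ) ^ i) • pr I ((C (l : ℤ) * X - C ((p : ℤ) ^ K * j)) ^ i)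
          (x + (p : ℤ) ^ K * j * (q * y)) (l * (q * y)) +
        ((-1 : ℤ) ^ (a + i) * (q : ℤ) ^ i) • pr I ((C (l : ℤ) * X - C (-(p : ℤ) ^ K * j)) ^ i)
          (-x + -(p : ℤ) ^ K * j * (q * y)) (l * (q * y)) := by
      intro j _
      rw [pr_phi, e1, e2, pr_C_mul, pr_C_mul]
      simp only [Pi.smul_apply, smul_smul]
      have a1 : x + 2 * (p : ℤ) ^ (K + 1) * j * y = x + (p : ℤ) ^ K * j * (q * y) := by
        rw [hq1]; ring
      have a2 : (q : ℤ) * (l * y) = l * (q * y) := by ring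
      have a3 : -(x + (p : ℤ) ^ K * j * (q * y)) = -x + -(p : ℤ) ^ K * j * (q * y) := by ring
      have a4 : (-1 : ℤ) ^ a * ((-1) ^ i * (q : ℤ) ^ i) = (-1) ^ (a + i) * (q : ℤ) ^ i := by
        rw [pow_add]
        ring
      rw [a1, a2, a3, a4]
    rw [Finset.sum_congr rfl h3, Finset.sum_add_distrib, ← Finset.smul_sum, ← Finset.smul_sum]
    simp only [PhiOf, smul_add]
    have a5 : -((l : ℤ) * x) = l * -x := by ring
    rw [a5, smul_comm ((l : ℤ) ^ (2 * a - i)) ((q : ℤ) ^ i),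
      smul_comm ((l : ℤ) ^ (2 * a - i)) ((-1 : ℤ) ^ (a + i) * (q : ℤ) ^ i)]
    abel
  rw [key, h1, h2]
  simp only [PhiOf, zsmul_eq_mul]
  ring

/-- words -/
private theorem words (hp : p.Prime) (hq : (q : ℤ) = 2 * p) (hq0 : (q : ℤ) ≠ 0) (h : IDataE p a ν I)
    (M : ℕ) (hM : 1 ≤ M) : ∀ ls : List ℕ, OkE p ls → ∃ c : ℂ,
    ∀ i : ℕ, i ≤ 2 * a → ∀ x y : ℤ, (x ≠ 0 ∨ y ≠ 0) →
      WTw a (2 * (p : ℤ) ^ M) ls (PhiOf q a I) x y i = c * PhiOf q a I x y i := by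
  obtain ⟨lam, hlam⟩ := hecke hp hq hq0 h
  intro ls
  induction ls with
  | nil =>
    intro _
    exact ⟨1, fun i _ x y _ => by simp [WTw]⟩
  | cons l ls ih =>
    intro hok
    obtain ⟨c, hc⟩ := ih (fun k hk => hok k (List.mem_cons_of_mem _ hk))
    obtain ⟨hl, hlp, hl2⟩ := hok l List.mem_cons_self
    refine ⟨c * lam l, fun i hi x y hxy => ?_⟩
    have hl0 : (l : ℤ) ≠ 0 := by exact_mod_cast hl.ne_zero
    have hpr : ∀ (P : Polynomial ℤ), P.natDegree ≤ 2 * a → ∀ u v : ℤ, (u ≠ 0 ∨ v ≠ 0) →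
        pr (WTw a (2 * (p : ℤ) ^ M) ls (PhiOf q a I)) P u v = c * pr (PhiOf q a I) P u v := by
      intro P hP u v huv
      rw [pr_eq_sum _ P (2 * a + 1) (by omega), pr_eq_sum _ P (2 * a + 1) (by omega)]
      simp only [Finset.sum_apply, Pi.smul_apply, cp, Finset.mul_sum]
      refine Finset.sum_congr rfl fun k hk => ?_
      rw [Finset.mem_range] at hk
      rw [hc k (by omega) u v huv, mul_smul_comm]
    have h1 := hlam M hM l hl hlp hl2 i hi x y hxy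
    have hgoal : WTw a (2 * (p : ℤ) ^ M) (l :: ls) (PhiOf q a I) x y i =
        c * WT a l (2 * (p : ℤ) ^ M) (PhiOf q a I) x y i := by
      simp only [WTw, WT]
      rw [mul_add, Finset.mul_sum]
      congr 1
      · refine Finset.sum_congr rfl fun j _ => ?_
        refine hpr _ ((deg_lin _ _ _).trans hi) _ _ ?_
        by_cases hy : y = 0
        · left
          subst hy
          simpa using hxy
        · exact Or.inr (mul_ne_zero hl0 hy)
      · rw [hc i hi (l * x) y, mul_smul_comm]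
        rcases hxy with hx | hy
        · exact Or.inl (mul_ne_zero hl0 hx)
        · exact Or.inr hy
    rw [hgoal, h1]
    ring

end

theorem hTr : SETr := by
  intro p a ν I hp hp2 h h0
  have hq : ((2 * p : ℕ) : ℤ) = 2 * (p : ℤ) := by push_cast; ring
  have hq0 : ((2 * p : ℕ) : ℤ) ≠ 0 := by exact_mod_cast mul_ne_zero two_ne_zero hp.ne_zero
  revert hq hq0
  generalize 2 * p = q
  intro hq hq0
  refine ⟨?_, eqvE hp hp2 hq hq0 h, p_tt hp hq hq0 h, p_ss hq hq0 h, p_fr hp hq hq0 h, p_st h, ?_⟩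
  · intro i hi k x y hk hxy
    simp only [cp, PhiOf]
    have h1 := h.hom i hi k x (q * y) hk (ne_vec hq0 hxy)
    have h2 := h.hom i hi k (-x) (q * y) hk (ne_vec hq0 (by simpa using hxy))
    simp only [cp] at h1 h2
    have a1 : (q : ℤ) * (k * y) = k * (q * y) := by ring
    have a2 : -(k * x) = k * -x := by ring
    rw [a1, a2, h1, h2]
  · intro M hM ls hls
    obtain ⟨c, hc⟩ := words hp hq hq0 h M hM ls hls
    rw [hc a (by omega) 1 0 (Or.inl one_ne_zero), hc a (by omega) 0 1 (Or.inr one_ne_zero)]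
    have ha := h.hom a (by omega)
    have e1 := ha (-1) 1 0 (by norm_num) (Or.inl one_ne_zero)
    have e2 := ha q 0 1 hq0 (Or.inr one_ne_zero)
    simp only [cp, mul_one, mul_zero] at e1 e2
    have e3 := h.inf a (by omega)
    simp only [PhiOf, mul_one, mul_zero, neg_zero, e1, e2, e3, h0, smul_zero, add_zero]

end Pool.Agent.Helper16.TLW
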